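import Pool.Agent.U115.WN.Stm
import Pool.Agent.U694.WM.ABS
import Pool.Agent.U283.WM.CNTL
import Pool.Agent.U333.WM.COV

/-! # Project WN, package ABS2: the abstract count, sharp version -/

set_option autoImplicit false

open scoped Classical
open Matrix

namespace Pool.Agent.U439.WN

open Pool.Agent.U115.WM Pool.Agent.U115.WN
open Pool.Agent.U694.WM (typ_bd typ_mono vol_pos one_le_vol le_vol gap_pos vol_bd rpow_bd ana box
  aux_le)

/-- the sum over the monotone types -/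
theorem sum_spr (k : ℕ) : ∃ C : ℝ, 0 < C ∧ ∀ R : ℕ,
    ∑ e ∈ (Fintype.piFinset (fun _ : Fin k => Finset.range (R + 1))).filter Monotone,
      (2 : ℝ) ^ (-(spr e : ℝ) / 2) ≤ C * (R + 1) := by
  rcases Nat.eq_zero_or_pos k with rfl | hk
  · refine ⟨1, one_pos, fun R => ?_⟩
    calc ∑ e ∈ (Fintype.piFinset (fun _ : Fin 0 => Finset.range (R + 1))).filter Monotone,
          (2 : ℝ) ^ (-(spr e : ℝ) / 2)
        ≤ ∑ e ∈ (Fintype.piFinset (fun _ : Fin 0 => Finset.range (R + 1))).filter Monotone,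
          (1 : ℝ) :=
          Finset.sum_le_sum fun e _ => Real.rpow_le_one_of_one_le_of_nonpos (by norm_num) (by
            have := Nat.cast_nonneg (α := ℝ) (spr e)
            linarith)
      _ ≤ 1 * (R + 1) := by
          rw [Finset.sum_const, nsmul_eq_mul, mul_one, one_mul]
          have h1 : ((Fintype.piFinset (fun _ : Fin 0 => Finset.range (R + 1))).filter
              Monotone).card ≤ 1 := by
            refine (Finset.card_filter_le _ _).trans ?_
            rw [Fintype.card_piFinset]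
            simp
          have h2 : (((Fintype.piFinset (fun _ : Fin 0 => Finset.range (R + 1))).filter
              Monotone).card : ℝ) ≤ 1 := by exact_mod_cast h1
          have h3 : (0 : ℝ) ≤ R := Nat.cast_nonneg R
          linarith
  · have hk0 : (0 : ℝ) < k := by exact_mod_cast hk
    obtain ⟨x, hx⟩ : ∃ x : ℝ, x = (2 : ℝ) ^ (-(1 : ℝ) / (2 * k)) := ⟨_, rfl⟩
    have hx0 : 0 < x := by rw [hx]; positivity
    have hx1 : x < 1 := by
      rw [hx]
      refine Real.rpow_lt_one_of_one_lt_of_neg (by norm_num) ?_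
      rw [neg_div, neg_lt_zero]
      positivity
    have h1x : 0 < 1 - x := by linarith
    refine ⟨((1 - x)⁻¹) ^ k, by positivity, fun R => ?_⟩
    let i0 : Fin k := ⟨0, hk⟩
    have hmin : ∀ i : Fin k, i0 ≤ i := fun i => Nat.zero_le _
    have hpt : ∀ e : Fin k → ℕ, (2 : ℝ) ^ (-(spr e : ℝ) / 2) ≤ ∏ i, x ^ (e i - e i0) := by
      intro e
      have h1 : ∀ i, e i - e i0 ≤ spr e := fun i =>
        Finset.le_sup (f := fun p : Fin k × Fin k => e p.2 - e p.1) (Finset.mem_univ (i0, i))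
      rw [Finset.prod_pow_eq_pow_sum]
      have h2 : x ^ (∑ i, (e i - e i0)) =
          (2 : ℝ) ^ (-(((∑ i, (e i - e i0) : ℕ) : ℝ)) / (2 * k)) := by
        rw [hx, ← Real.rpow_natCast, ← Real.rpow_mul (by norm_num)]
        congr 1
        ring
      rw [h2]
      apply Real.rpow_le_rpow_of_exponent_le (by norm_num)
      have h3 : ∑ i, (e i - e i0) ≤ k * spr e := by
        calc ∑ i, (e i - e i0) ≤ ∑ _i : Fin k, spr e := Finset.sum_le_sum fun i _ => h1 i
          _ = k * spr e := by simp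
      have h4 : ((∑ i, (e i - e i0) : ℕ) : ℝ) ≤ k * spr e := by exact_mod_cast h3
      rw [neg_div, neg_div, neg_le_neg_iff, div_le_div_iff₀ (by positivity) (by norm_num)]
      nlinarith
    let φ : (Fin k → ℕ) → ℕ × (Fin k → ℕ) := fun e => (e i0, fun i => e i - e i0)
    have hinj : Set.InjOn φ
        ((Fintype.piFinset (fun _ : Fin k => Finset.range (R + 1))).filter Monotone : Set _) := by
      intro e he e' he' hee
      have m1 : Monotone e := (Finset.mem_filter.1 (Finset.mem_coe.1 he)).2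
      have m2 : Monotone e' := (Finset.mem_filter.1 (Finset.mem_coe.1 he')).2
      have q1 : e i0 = e' i0 := congrArg Prod.fst hee
      have q2 : (fun i => e i - e i0) = fun i => e' i - e' i0 := congrArg Prod.snd hee
      funext i
      have q3 : e i - e i0 = e' i - e' i0 := congrFun q2 i
      have q4 := m1 (hmin i)
      have q5 := m2 (hmin i)
      omega
    have hsub : ((Fintype.piFinset (fun _ : Fin k => Finset.range (R + 1))).filter
        Monotone).image φ ⊆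
        Finset.range (R + 1) ×ˢ Fintype.piFinset (fun _ : Fin k => Finset.range (R + 1)) := by
      intro y hy
      obtain ⟨e, he, rfl⟩ := Finset.mem_image.1 hy
      have h1 := Fintype.mem_piFinset.1 (Finset.mem_filter.1 he).1
      rw [Finset.mem_product, Fintype.mem_piFinset]
      refine ⟨h1 i0, fun i => ?_⟩
      have h2 := h1 i
      rw [Finset.mem_range] at h2 ⊢
      show e i - e i0 < R + 1
      omega
    have hgeom : ∑ j ∈ Finset.range (R + 1), x ^ j ≤ (1 - x)⁻¹ := by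
      rw [← tsum_geometric_of_lt_one hx0.le hx1]
      exact (summable_geometric_of_lt_one hx0.le hx1).sum_le_tsum _ (fun j _ => by positivity)
    have hgeom0 : 0 ≤ ∑ j ∈ Finset.range (R + 1), x ^ j :=
      Finset.sum_nonneg fun j _ => by positivity
    calc ∑ e ∈ (Fintype.piFinset (fun _ : Fin k => Finset.range (R + 1))).filter Monotone,
          (2 : ℝ) ^ (-(spr e : ℝ) / 2)
        ≤ ∑ e ∈ (Fintype.piFinset (fun _ : Fin k => Finset.range (R + 1))).filter Monotone,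
          (fun y : ℕ × (Fin k → ℕ) => ∏ i, x ^ y.2 i) (φ e) :=
          Finset.sum_le_sum fun e _ => hpt e
      _ = ∑ y ∈ ((Fintype.piFinset (fun _ : Fin k => Finset.range (R + 1))).filter
            Monotone).image φ, (fun y : ℕ × (Fin k → ℕ) => ∏ i, x ^ y.2 i) y :=
          (Finset.sum_image (f := fun y : ℕ × (Fin k → ℕ) => ∏ i, x ^ y.2 i) hinj).symm
      _ ≤ ∑ y ∈ Finset.range (R + 1) ×ˢ
            Fintype.piFinset (fun _ : Fin k => Finset.range (R + 1)), ∏ i, x ^ y.2 i :=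
          Finset.sum_le_sum_of_subset_of_nonneg hsub
            (fun y _ _ => Finset.prod_nonneg fun i _ => by positivity)
      _ = (R + 1) * (∑ j ∈ Finset.range (R + 1), x ^ j) ^ k := by
          rw [Finset.sum_product]
          have : ∑ d ∈ Fintype.piFinset (fun _ : Fin k => Finset.range (R + 1)),
              ∏ i, x ^ d i = (∑ j ∈ Finset.range (R + 1), x ^ j) ^ k := by
            rw [← Finset.prod_univ_sum]
            simp
          simp only [this]
          rw [Finset.sum_const, Finset.card_range, nsmul_eq_mul]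
          push_cast
          ring
      _ ≤ (R + 1) * ((1 - x)⁻¹) ^ k := by
          have := pow_le_pow_left₀ hgeom0 hgeom k
          exact mul_le_mul_of_nonneg_left this (by positivity)
      _ = ((1 - x)⁻¹) ^ k * (R + 1) := by ring

theorem count_union2 {P E : Type} (S : Set P) (t : P → E) (F : Finset E) (D : E → ℝ)
    (hmem : ∀ p ∈ S, t p ∈ F)
    (h : ∀ e ∈ F, {p | p ∈ S ∧ t p = e}.Finite ∧ ({p | p ∈ S ∧ t p = e}.ncard : ℝ) ≤ D e) :
    S.Finite ∧ (S.ncard : ℝ) ≤ ∑ e ∈ F, D e := by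
  have hfin : S.Finite := by
    refine ((F.finite_toSet).biUnion (fun e he => (h e he).1)).subset ?_
    intro p hp
    simp only [Set.mem_iUnion]
    exact ⟨t p, hmem p hp, hp, rfl⟩
  refine ⟨hfin, ?_⟩
  rw [Set.ncard_eq_toFinset_card S hfin,
    Finset.card_eq_sum_card_fiberwise (f := t) (t := F) (fun p hp => hmem p (by simpa using hp))]
  push_cast
  refine Finset.sum_le_sum fun e he => ?_
  refine le_trans ?_ (h e he).2
  rw [Set.ncard_eq_toFinset_card _ (h e he).1]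
  refine Nat.cast_le.2 (Finset.card_le_card ?_)
  intro p hp
  simpa using hp

theorem t_ABS2 : S_ABS2 := by
  have hCNTL : S_CNTL := Pool.Agent.U283.WM.CNTL.t_CNTL
  have hCOV : S_COV := Pool.Agent.U333.WM.t_COV
  intro n k ι _ w ND κ τ ρ C₀ C₁ P Λ H cf hκ hρ hC₀ hC₁ hw hND hred hcoord hinj
    hA hB a b α ha hs h1 h2
  obtain ⟨CL, hCL1, hCL⟩ := hCNTL n k
  obtain ⟨CA', hCA'⟩ := hA
  obtain ⟨c, hc, hcb⟩ := hB
  -- a chosen reduced basis
  choose bs hbs1 hbs2 using hred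
  let bas : Set (Fin n → ℤ) → Matrix (Fin n) (Fin k) ℤ := fun L =>
    if h : ∃ B : Matrix (Fin n) (Fin k) ℤ, Red C₀ B ∧ lat B = L then h.choose else 0
  have hbas : ∀ p, Red C₀ (bas (Λ p)) ∧ lat (bas (Λ p)) = Λ p := by
    intro p
    have hex : ∃ B : Matrix (Fin n) (Fin k) ℤ, Red C₀ B ∧ lat B = Λ p := ⟨bs p, hbs1 p, hbs2 p⟩
    have : bas (Λ p) = hex.choose := dif_pos hex
    rw [this]
    exact hex.choose_spec
  obtain ⟨K, hKd⟩ : ∃ K, K = √C₀ * 2 ^ k := ⟨_, rfl⟩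
  have hK : 1 ≤ K := by
    rw [hKd]
    have e1 : 1 ≤ √C₀ := Real.one_le_sqrt.2 hC₀
    have e2 : (1 : ℝ) ≤ 2 ^ k := one_le_pow₀ (by norm_num)
    nlinarith
  have hK0 : 0 < K := by linarith
  obtain ⟨A, hAd⟩ : ∃ A, A = C₁ ^ a * K ^ |b| := ⟨_, rfl⟩
  have hC₁0 : 0 < C₁ := by linarith
  have hA0 : 0 < A := by rw [hAd]; positivity
  have hα : 0 ≤ α := by
    have : 0 ≤ a * α := le_trans (by positivity) h1
    exact nonneg_of_mul_nonneg_right this ha
  obtain ⟨s, hsd⟩ : ∃ s, s = (κ * b + τ * a) / κ := ⟨_, rfl⟩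
  have hs0 : 0 < s := by rw [hsd]; positivity
  obtain ⟨G, hG⟩ : ∃ G, G = (c ^ (a / κ))⁻¹ * A := ⟨_, rfl⟩
  have hG0 : 0 < G := by rw [hG]; positivity
  have hlog2 : 0 < Real.log 2 := Real.log_pos (by norm_num)
  obtain ⟨C3, hC3⟩ : ∃ C3, C3 = (|Real.log G| + 1) / (s * Real.log 2) := ⟨_, rfl⟩
  have hC30 : 0 < C3 := by rw [hC3]; positivity
  obtain ⟨CA, hCAd⟩ : ∃ CA, CA = max CA' 1 := ⟨_, rfl⟩
  have hCA0 : 0 < CA := by rw [hCAd]; exact lt_of_lt_of_le one_pos (le_max_right _ _)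
  have hCA : ∀ (e : Fin k → ℕ) (M : ℝ), Monotone e → 0 < M → ND e M →
      ∏ α, max 1 (M / w e α) ≤ (CA * (2 : ℝ) ^ (-(spr e : ℝ) / 2)) *
        (M ^ κ * vol e ^ (-τ)) ^ ρ * gap e := by
    intro e M he hM hnd
    refine (hCA' e M he hM hnd).trans ?_
    have hv := vol_pos e
    have hg := gap_pos e
    have h5 : CA' ≤ CA := by rw [hCAd]; exact le_max_left _ _
    have h6 : 0 ≤ (M ^ κ * vol e ^ (-τ)) ^ ρ * gap e * (2 : ℝ) ^ (-(spr e : ℝ) / 2) := by
      positivity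
    calc CA' * (M ^ κ * vol e ^ (-τ)) ^ ρ * gap e * (2 : ℝ) ^ (-(spr e : ℝ) / 2)
        = CA' * ((M ^ κ * vol e ^ (-τ)) ^ ρ * gap e * (2 : ℝ) ^ (-(spr e : ℝ) / 2)) := by ring
      _ ≤ CA * ((M ^ κ * vol e ^ (-τ)) ^ ρ * gap e * (2 : ℝ) ^ (-(spr e : ℝ) / 2)) :=
          mul_le_mul_of_nonneg_right h5 h6
      _ = (CA * (2 : ℝ) ^ (-(spr e : ℝ) / 2)) * (M ^ κ * vol e ^ (-τ)) ^ ρ * gap e := by ring
  obtain ⟨C4, hC40, hC4⟩ := sum_spr k
  obtain ⟨D, hDd⟩ : ∃ D, D = CL * 3 ^ Fintype.card ι * CA *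
    ((c ^ (a * α / κ - ρ))⁻¹ * A ^ α) := ⟨_, rfl⟩
  have hD0 : 0 < D := by rw [hDd]; positivity
  refine ⟨C4 * (C3 + 1) * D, fun T hT => ?_⟩
  have hT0 : 0 < T := by linarith
  have hlT : 0 ≤ Real.log T := Real.log_nonneg hT
  obtain ⟨S, hS⟩ : ∃ S : Set P, S = {p : P | ∃ (B : Matrix (Fin n) (Fin k) ℤ) (h : ℝ), Inj B ∧
    lat B = Λ p ∧ 0 < h ∧ H p h ∧ h ^ a * cov B ^ b ≤ T} := ⟨_, rfl⟩
  rw [← hS]
  -- the size of the form for the type `e`
  let Me : (Fin k → ℕ) → ℝ := fun e => (A * T * vol e ^ (-b)) ^ (1 / a)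
  have hMe0 : ∀ e, 0 < Me e := by
    intro e
    have := vol_pos e
    show 0 < (A * T * vol e ^ (-b)) ^ (1 / a)
    positivity
  have hMea : ∀ e, Me e ^ a = A * T * vol e ^ (-b) := by
    intro e
    have := vol_pos e
    show ((A * T * vol e ^ (-b)) ^ (1 / a)) ^ a = _
    rw [← Real.rpow_mul (by positivity), one_div, inv_mul_cancel₀ ha.ne', Real.rpow_one]
  have hMeX : ∀ e, Me e ^ a * vol e ^ b = A * T := by
    intro e
    rw [hMea, mul_assoc, ← Real.rpow_add (vol_pos e)]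
    simp
  -- the facts on a point
  have hfact : ∀ p ∈ S, Monotone (typ (bas (Λ p))) ∧
      ND (typ (bas (Λ p))) (Me (typ (bas (Λ p)))) ∧
      ∀ α, |(cf (bas (Λ p)) p α : ℝ)| * w (typ (bas (Λ p))) α ≤ Me (typ (bas (Λ p))) := by
    intro p hp
    rw [hS] at hp
    obtain ⟨B, h, hBi, hBl, hh, hHp, hle⟩ := hp
    obtain ⟨r1, r2⟩ := hbas p
    have hcov : cov B = cov (bas (Λ p)) :=
      (hCOV.1 n k B (bas (Λ p)) hBi r1.inj (hBl.trans r2.symm)).2
    obtain ⟨v1, v2, v3⟩ := vol_bd hC₀ r1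
    rw [← hKd] at v1 v2
    have hvp := vol_pos (typ (bas (Λ p)))
    have e1 : vol (typ (bas (Λ p))) ^ b ≤ K ^ |b| * cov B ^ b := by
      rw [hcov]
      exact rpow_bd hK hvp v3 v1 v2
    obtain ⟨q1, q2⟩ := hcoord p h (bas (Λ p)) hh hHp r1 r2
    have e2 : C₁ * h ≤ Me (typ (bas (Λ p))) := by
      rw [← Real.rpow_le_rpow_iff (by positivity) (hMe0 _).le ha, hMea]
      have e3 : (C₁ * h) ^ a * vol (typ (bas (Λ p))) ^ b ≤ A * T := by
        rw [Real.mul_rpow hC₁0.le hh.le, hAd]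
        calc C₁ ^ a * h ^ a * vol (typ (bas (Λ p))) ^ b ≤ C₁ ^ a * h ^ a * (K ^ |b| * cov B ^ b) := by
              gcongr
          _ = C₁ ^ a * K ^ |b| * (h ^ a * cov B ^ b) := by ring
          _ ≤ C₁ ^ a * K ^ |b| * T := by gcongr
      rw [Real.rpow_neg hvp.le, ← div_eq_mul_inv, le_div_iff₀ (by positivity)]
      exact e3
    refine ⟨typ_mono r1, hND _ _ _ q2 e2, fun α => (q1 α).trans e2⟩
  -- the analysis for a type
  have hana : ∀ e, Monotone e → ND e (Me e) →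
      vol e ^ n * (Me e ^ κ * vol e ^ (-τ)) ^ ρ ≤ (c ^ (a * α / κ - ρ))⁻¹ * (A * T) ^ α ∧
      vol e ^ s ≤ (c ^ (a / κ))⁻¹ * (A * T) := by
    intro e he hnd
    have := ana (n := n) (b := b) (ρ := ρ) (α := α) (X := A * T) hκ hc ha hs h1 h2 (one_le_vol e)
      (hMe0 e) (hMeX e) (hcb e (Me e) he (hMe0 e) hnd)
    rw [hsd]
    exact this
  let R : ℕ := ⌊C3 * (1 + Real.log T)⌋₊
  let F : Finset (Fin k → ℕ) :=
    (Fintype.piFinset (fun _ : Fin k => Finset.range (R + 1))).filter Monotone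
  have hF : ∀ p ∈ S, typ (bas (Λ p)) ∈ F := by
    intro p hp
    obtain ⟨m1, m2, -⟩ := hfact p hp
    obtain ⟨-, w2⟩ := hana _ m1 m2
    refine Finset.mem_filter.2 ⟨?_, m1⟩
    rw [Fintype.mem_piFinset]
    intro i
    rw [Finset.mem_range, Nat.lt_succ_iff]
    apply Nat.le_floor
    have g1 : ((2 : ℝ) ^ typ (bas (Λ p)) i) ^ s ≤ G * T := by
      calc ((2 : ℝ) ^ typ (bas (Λ p)) i) ^ s ≤ vol (typ (bas (Λ p))) ^ s :=
            Real.rpow_le_rpow (by positivity) (le_vol _ i) hs0.le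
        _ ≤ (c ^ (a / κ))⁻¹ * (A * T) := w2
        _ = G * T := by rw [hG]; ring
    have g2 := Real.log_le_log (by positivity) g1
    rw [Real.log_rpow (by positivity), Real.log_pow, Real.log_mul hG0.ne' hT0.ne'] at g2
    rw [hC3, div_mul_eq_mul_div, le_div_iff₀ (by positivity)]
    have g3 := le_abs_self (Real.log G)
    have g4 := abs_nonneg (Real.log G)
    nlinarith
  have hfib : ∀ e ∈ F, {p | p ∈ S ∧ typ (bas (Λ p)) = e}.Finite ∧
      ({p | p ∈ S ∧ typ (bas (Λ p)) = e}.ncard : ℝ) ≤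
        D * T ^ α * (2 : ℝ) ^ (-(spr e : ℝ) / 2) := by
    intro e _
    rcases Set.eq_empty_or_nonempty {p | p ∈ S ∧ typ (bas (Λ p)) = e} with hemp | ⟨p0, hp0, hp0e⟩
    · rw [hemp]
      refine ⟨Set.finite_empty, ?_⟩
      rw [Set.ncard_empty]
      push_cast
      positivity
    obtain ⟨m1, m2, -⟩ := hfact p0 hp0
    rw [hp0e] at m1 m2
    obtain ⟨w1, -⟩ := hana e m1 m2
    have hv := vol_pos e
    have hg := gap_pos e
    -- the lattices
    let LL : Set (Set (Fin n → ℤ)) := Λ '' {p | p ∈ S ∧ typ (bas (Λ p)) = e}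
    have hLLc : ∀ 𝓛 : Finset (Set (Fin n → ℤ)), (𝓛 : Set (Set (Fin n → ℤ))) ⊆ LL →
        (𝓛.card : ℝ) ≤ CL * vol e ^ n / gap e := by
      intro 𝓛 h𝓛
      rw [le_div_iff₀ hg]
      apply hCL e m1 𝓛
      intro L hL
      obtain ⟨p, ⟨hp, hpe⟩, rfl⟩ := h𝓛 hL
      obtain ⟨r1, r2⟩ := hbas p
      refine ⟨bas (Λ p), r1.inj, r2, fun i => ?_⟩
      rw [← hpe]
      exact (typ_bd i (r1.pos i)).2
    have hLLf : LL.Finite := by
      by_contra hinf
      obtain ⟨t, ht1, ht2⟩ := Set.Infinite.exists_subset_card_eq hinf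
        (⌊CL * vol e ^ n / gap e⌋₊ + 1)
      have h3 := hLLc t ht1
      rw [ht2] at h3
      have h4 := Nat.lt_floor_add_one (CL * vol e ^ n / gap e)
      push_cast at h3
      linarith
    obtain ⟨Bx, hBx1, hBx2⟩ := box (Me e) (hMe0 e) (w e) (hw e)
    let f : P → Set (Fin n → ℤ) × (ι → ℤ) := fun p => (Λ p, cf (bas (Λ p)) p)
    have hmaps : ∀ p ∈ {p | p ∈ S ∧ typ (bas (Λ p)) = e},
        f p ∈ ((hLLf.toFinset ×ˢ Bx : Finset _) : Set (Set (Fin n → ℤ) × (ι → ℤ))) := by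
      rintro p ⟨hp, hpe⟩
      rw [Finset.mem_coe, Finset.mem_product]
      refine ⟨?_, ?_⟩
      · rw [Set.Finite.mem_toFinset]
        exact ⟨p, ⟨hp, hpe⟩, rfl⟩
      · apply hBx1
        obtain ⟨-, -, m3⟩ := hfact p hp
        rw [hpe] at m3
        exact m3
    have hfinj : Set.InjOn f {p | p ∈ S ∧ typ (bas (Λ p)) = e} := by
      rintro p ⟨hp, hpe⟩ p' ⟨hp', hpe'⟩ hpp
      have q1 : Λ p = Λ p' := congrArg Prod.fst hpp
      have q2 : cf (bas (Λ p)) p = cf (bas (Λ p')) p' := congrArg Prod.snd hpp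
      rw [← q1] at q2
      obtain ⟨r1, r2⟩ := hbas p
      exact hinj p p' (bas (Λ p)) r1 r2 (r2.trans q1) q2
    have hff : {p | p ∈ S ∧ typ (bas (Λ p)) = e}.Finite :=
      Set.Finite.of_injOn hmaps hfinj (Finset.finite_toSet _)
    refine ⟨hff, ?_⟩
    have hcard := Set.ncard_le_ncard_of_injOn f hmaps hfinj (Finset.finite_toSet _)
    rw [Set.ncard_coe_finset, Finset.card_product] at hcard
    have hcard' : ({p | p ∈ S ∧ typ (bas (Λ p)) = e}.ncard : ℝ) ≤
        (hLLf.toFinset.card : ℝ) * (Bx.card : ℝ) := by exact_mod_cast hcard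
    have hL1 := hLLc hLLf.toFinset (by simp)
    refine aux_le (b2 := ∏ α, max 1 (Me e / w e α)) (Y := (Me e ^ κ * vol e ^ (-τ)) ^ ρ)
      (Nat.cast_nonneg _) hcard' hg hL1 ?_ hBx2 (by positivity) (hCA e (Me e) m1 (hMe0 e) m2) w1
      ?_ ?_
    · positivity
    · positivity
    · rw [hDd, Real.mul_rpow hA0.le hT0.le]; ring
  obtain ⟨t1, t2⟩ := count_union2 S (fun p => typ (bas (Λ p))) F
    (fun e => D * T ^ α * (2 : ℝ) ^ (-(spr e : ℝ) / 2)) hF hfib
  refine ⟨t1, t2.trans ?_⟩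
  rw [← Finset.mul_sum]
  have hR : (R : ℝ) ≤ C3 * (1 + Real.log T) := Nat.floor_le (by positivity)
  have hR1 : (R : ℝ) + 1 ≤ (C3 + 1) * (1 + Real.log T) := by nlinarith
  have hDT : 0 ≤ D * T ^ α := by positivity
  calc D * T ^ α * ∑ e ∈ F, (2 : ℝ) ^ (-(spr e : ℝ) / 2) ≤ D * T ^ α * (C4 * (R + 1)) :=
        mul_le_mul_of_nonneg_left (hC4 R) hDT
    _ ≤ D * T ^ α * (C4 * ((C3 + 1) * (1 + Real.log T))) :=
        mul_le_mul_of_nonneg_left (mul_le_mul_of_nonneg_left hR1 hC40.le) hDT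
    _ = C4 * (C3 + 1) * D * T ^ α * (1 + Real.log T) := by ring

end Pool.Agent.U439.WN
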